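import Pool.Agent.helper82.LB.Spec1
import Pool.Agent.helper6.GO.Irr

/-!
# Project LB (MP_2e0e07_nt), row LOC: elements near `1` whose discriminant is not a square
-/

set_option autoImplicit false

open Matrix Polynomial NumberField Pool.Agent.GO Pool.Agent.RG Pool.Agent.CH

namespace Pool.Agent.LB

theorem LOC_hensel (p : ℕ) [Fact p.Prime] (z : ℚ_[p]) (hz : ‖z‖ < ‖(4 : ℚ_[p])‖) : IsSquare (1 + z) := by
  have h4 : ‖(4 : ℚ_[p])‖ ≤ 1 := by
    have h := Padic.norm_int_le_one (p := p) 4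
    exact_mod_cast h
  have hz1 : ‖z‖ ≤ 1 := hz.le.trans h4
  obtain ⟨z', hz'⟩ : ∃ z' : ℤ_[p], (z' : ℚ_[p]) = z := ⟨⟨z, hz1⟩, rfl⟩
  have h1 : Polynomial.aeval (1 : ℤ_[p]) (X ^ 2 - C (1 + z') : ℤ_[p][X]) = -z' := by
    simp
  have h2 : Polynomial.aeval (1 : ℤ_[p]) (Polynomial.derivative (X ^ 2 - C (1 + z') : ℤ_[p][X])) = 2 := by
    rw [Polynomial.derivative_sub, Polynomial.derivative_C, Polynomial.derivative_X_pow]
    simp
  have h3 : ‖Polynomial.aeval (1 : ℤ_[p]) (X ^ 2 - C (1 + z') : ℤ_[p][X])‖ <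
      ‖Polynomial.aeval (1 : ℤ_[p]) (Polynomial.derivative (X ^ 2 - C (1 + z') : ℤ_[p][X]))‖ ^ 2 := by
    rw [h1, h2, norm_neg, ← norm_pow, PadicInt.norm_def, PadicInt.norm_def, hz']
    have e : (((2 : ℤ_[p]) ^ 2 : ℤ_[p]) : ℚ_[p]) = 4 := by
      have e0 : ((2 : ℤ_[p]) : ℚ_[p]) = 2 := rfl
      rw [PadicInt.coe_pow, e0]
      norm_num
    rw [e]
    exact hz
  obtain ⟨y, hy, -⟩ := hensels_lemma h3
  have h5 : y ^ 2 = 1 + z' := by
    have h6 : Polynomial.aeval y (X ^ 2 - C (1 + z') : ℤ_[p][X]) = y ^ 2 - (1 + z') := by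
      simp
    rw [h6] at hy
    exact sub_eq_zero.1 hy
  refine ⟨(y : ℚ_[p]), ?_⟩
  rw [← hz']
  have h7 : ((y ^ 2 : ℤ_[p]) : ℚ_[p]) = ((1 + z' : ℤ_[p]) : ℚ_[p]) := by rw [h5]
  push_cast at h7
  rw [← h7, pow_two]

/-- three elements of a family spanning the space with nonzero determinant -/
theorem LOC_three {Ω G : Type*} [Field Ω] (f : G → (Fin 3 → Ω)) (hf : Submodule.span Ω (Set.range f) = ⊤) :
    ∃ g : Fin 3 → G, (Matrix.of fun i => f (g i) : Matrix (Fin 3) (Fin 3) Ω).det ≠ 0 := by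
  obtain ⟨t, ht, htspan, hli⟩ := exists_linearIndependent Ω (Set.range f)
  rw [hf] at htspan
  let bs : Module.Basis t Ω (Fin 3 → Ω) := Module.Basis.mk hli (by rw [Subtype.range_coe, htspan])
  let e : Fin 3 ≃ t := (bs.indexEquiv (Pi.basisFun Ω (Fin 3))).symm
  have h1 : ∀ i : Fin 3, ∃ g, f g = (e i : Fin 3 → Ω) := fun i => ht (e i).2
  choose g hg using h1
  refine ⟨g, ?_⟩
  have h2 : LinearIndependent Ω fun i : Fin 3 => (e i : Fin 3 → Ω) := hli.comp e e.injective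
  have h3 : (Matrix.of fun i => f (g i) : Matrix (Fin 3) (Fin 3) Ω) =
      Matrix.of fun i : Fin 3 => (e i : Fin 3 → Ω) := by
    ext i j
    exact congrFun (hg i) j
  rw [h3]
  have h4 : IsUnit (Matrix.of fun i : Fin 3 => (e i : Fin 3 → Ω)) :=
    Matrix.linearIndependent_rows_iff_isUnit.1 h2
  exact ((Matrix.isUnit_iff_isUnit_det _).1 h4).ne_zero

/-- the coordinates modulo the scalars -/
def LOC_co {F : Type*} [CommRing F] (X : Matrix (Fin 2) (Fin 2) F) : Fin 3 → F :=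
  ![X 0 1, X 1 0, X 0 0 - X 1 1]

theorem LOC_gram {F : Type*} [CommRing F] (X : Fin 3 → Matrix (Fin 2) (Fin 2) F) :
    (Matrix.of fun i j => 2 * (X i * X j).trace - (X i).trace * (X j).trace : Matrix (Fin 3) (Fin 3) F).det =
      -4 * ((Matrix.of fun i => LOC_co (X i) : Matrix (Fin 3) (Fin 3) F).det) ^ 2 := by
  have e : (Matrix.of fun i j => 2 * (X i * X j).trace - (X i).trace * (X j).trace : Matrix (Fin 3) (Fin 3) F) =
      (Matrix.of fun i => LOC_co (X i)) * !![0, 2, 0; 2, 0, 0; 0, 0, 1] * (Matrix.of fun i => LOC_co (X i))ᵀ := by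
    ext i j
    simp only [Matrix.of_apply, Matrix.mul_apply, Matrix.transpose_apply, Fin.sum_univ_three, Fin.sum_univ_two,
      Matrix.trace_fin_two, LOC_co, Matrix.cons_val_zero, Matrix.cons_val_one, Matrix.cons_val]
    ring
  rw [e, Matrix.det_mul, Matrix.det_mul, Matrix.det_transpose]
  have h : (!![0, 2, 0; 2, 0, 0; 0, 0, 1] : Matrix (Fin 3) (Fin 3) F).det = -4 := by
    simp only [Matrix.det_fin_three, Matrix.of_apply, Matrix.cons_val_zero, Matrix.cons_val_one, Matrix.cons_val]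
    ring
  rw [h]
  ring

theorem LOC_dsc {F : Type*} [CommRing F] (X : Fin 3 → Matrix (Fin 2) (Fin 2) F) (c : Fin 3 → F) :
    dsc (∑ i, c i • X i) = ∑ i, ∑ j, c i * (2 * (X i * X j).trace - (X i).trace * (X j).trace) * c j := by
  unfold dsc
  simp only [Fin.sum_univ_three, Matrix.trace_fin_two, Matrix.det_fin_two, Matrix.add_apply, Matrix.smul_apply,
    smul_eq_mul, Matrix.mul_apply, Fin.sum_univ_two]
  ring

/-- the elements close to `1` -/
def LOC_U {F Γ : Type} [NormedField F] [IsUltrametricDist F] [Group Γ] (ρ : Γ →* Matrix (Fin 2) (Fin 2) F)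
    (hint : ∀ g x y, ‖ρ g x y‖ ≤ 1) (r : ℝ) (hr : 0 ≤ r) : Subgroup Γ where
  carrier := {u | ∀ x y, ‖ρ u x y - (1 : Matrix (Fin 2) (Fin 2) F) x y‖ ≤ r}
  one_mem' := by
    intro x y
    rw [map_one, sub_self, norm_zero]
    exact hr
  mul_mem' := by
    intro a b ha hb x y
    have e : ρ (a * b) - 1 = (ρ a - 1) * ρ b + (ρ b - 1) := by
      rw [map_mul, Matrix.sub_mul, one_mul]
      abel
    have e2 : ρ (a * b) x y - (1 : Matrix (Fin 2) (Fin 2) F) x y = ((ρ a - 1) * ρ b) x y + (ρ b - 1) x y := by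
      have := congrFun (congrFun e x) y
      simpa using this
    rw [e2]
    refine (IsUltrametricDist.norm_add_le_max _ _).trans (max_le ?_ (hb x y))
    rw [Matrix.mul_apply, Fin.sum_univ_two]
    refine (IsUltrametricDist.norm_add_le_max _ _).trans (max_le ?_ ?_)
    · rw [norm_mul]
      calc ‖(ρ a - 1) x 0‖ * ‖ρ b 0 y‖ ≤ r * 1 := mul_le_mul (ha x 0) (hint b 0 y) (norm_nonneg _) hr
        _ = r := mul_one r
    · rw [norm_mul]
      calc ‖(ρ a - 1) x 1‖ * ‖ρ b 1 y‖ ≤ r * 1 := mul_le_mul (ha x 1) (hint b 1 y) (norm_nonneg _) hr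
        _ = r := mul_one r
  inv_mem' := by
    intro a ha x y
    have e : ρ a⁻¹ - 1 = -(ρ a⁻¹ * (ρ a - 1)) := by
      rw [Matrix.mul_sub, mul_one, ← map_mul, inv_mul_cancel, map_one]
      abel
    have e2 : ρ a⁻¹ x y - (1 : Matrix (Fin 2) (Fin 2) F) x y = -(ρ a⁻¹ * (ρ a - 1)) x y := by
      have := congrFun (congrFun e x) y
      simpa using this
    rw [e2, norm_neg, Matrix.mul_apply, Fin.sum_univ_two]
    refine (IsUltrametricDist.norm_add_le_max _ _).trans (max_le ?_ ?_)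
    · rw [norm_mul]
      calc ‖ρ a⁻¹ x 0‖ * ‖(ρ a - 1) 0 y‖ ≤ 1 * r := mul_le_mul (hint _ x 0) (ha 0 y) (norm_nonneg _) zero_le_one
        _ = r := one_mul r
    · rw [norm_mul]
      calc ‖ρ a⁻¹ x 1‖ * ‖(ρ a - 1) 1 y‖ ≤ 1 * r := mul_le_mul (hint _ x 1) (ha 1 y) (norm_nonneg _) zero_le_one
        _ = r := one_mul r

theorem LOC_open {F Γ : Type} [NormedField F] [IsUltrametricDist F] [Group Γ] [TopologicalSpace Γ]
    [IsTopologicalGroup Γ] (ρ : Γ →* Matrix (Fin 2) (Fin 2) F) (hρ : Continuous ρ)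
    (hint : ∀ g x y, ‖ρ g x y‖ ≤ 1) (r : ℝ) (hr : 0 < r) : IsOpen (LOC_U ρ hint r hr.le : Set Γ) := by
  refine Subgroup.isOpen_of_mem_nhds _ (g := 1) ?_
  have h1 : IsOpen {u : Γ | ∀ x y, ‖ρ u x y - (1 : Matrix (Fin 2) (Fin 2) F) x y‖ < r} := by
    have e : {u : Γ | ∀ x y, ‖ρ u x y - (1 : Matrix (Fin 2) (Fin 2) F) x y‖ < r} =
        ⋂ x : Fin 2, ⋂ y : Fin 2, {u : Γ | ‖ρ u x y - (1 : Matrix (Fin 2) (Fin 2) F) x y‖ < r} := by
      ext u
      simp
    rw [e]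
    refine isOpen_iInter_of_finite fun x => isOpen_iInter_of_finite fun y => ?_
    exact isOpen_lt (((hρ.matrix_elem x y).sub continuous_const).norm) continuous_const
  refine Filter.mem_of_superset (h1.mem_nhds ?_) ?_
  · intro x y
    rw [map_one, sub_self, norm_zero]
    exact hr
  · intro u hu x y
    exact (hu x y).le

theorem LOC (hTFQ : TFQ_stmt) (hPOW : POW_stmt) : LOC_stmt := by
  intro p hp F Ω Γ _ _ _ _ _ _ _ _ _ ρ hρ hint hirr hpol ε hε
  have hult : IsUltrametricDist F := IsUltrametricDist.of_normedAlgebra ℚ_[p]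
  have hp0 : (0 : ℝ) < p := by exact_mod_cast hp.out.pos
  have hpz : (p : ℚ_[p]) ≠ 0 := by exact_mod_cast hp.out.ne_zero
  obtain ⟨r, hr⟩ : ∃ r : ℝ, r = min (ε / 2) ((p : ℝ) ^ 2)⁻¹ := ⟨_, rfl⟩
  have hr0 : 0 < r := by
    rw [hr]
    exact lt_min (by linarith) (by positivity)
  have hr1 : r ≤ ε / 2 := by rw [hr]; exact min_le_left _ _
  have hr2 : r ≤ ((p : ℝ) ^ 2)⁻¹ := by rw [hr]; exact min_le_right _ _
  have hUo := LOC_open ρ hρ hint r hr0
  obtain ⟨U, hU⟩ : ∃ U : Subgroup Γ, U = LOC_U ρ hint r hr0.le := ⟨_, rfl⟩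
  rw [← hU] at hUo
  have hmemU : ∀ v ∈ U, ∀ x y, ‖ρ v x y - (1 : Matrix (Fin 2) (Fin 2) F) x y‖ ≤ r := by
    intro v hv
    rw [hU] at hv
    exact hv
  -- three elements of `U` which are independent modulo the scalars
  have hspan : Submodule.span Ω (Set.range ((bc (algebraMap F Ω) ρ).comp U.subtype)) = ⊤ :=
    span_top_of_irred ((bc (algebraMap F Ω) ρ).comp U.subtype) (hirr U hUo)
  let L : Matrix (Fin 2) (Fin 2) Ω →ₗ[Ω] (Fin 3 → Ω) :=
    { toFun := LOC_co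
      map_add' := by
        intro A B
        ext i
        fin_cases i <;> simp [LOC_co]
        ring
      map_smul' := by
        intro c A
        ext i
        fin_cases i <;> simp [LOC_co]
        ring }
  have hL : Function.Surjective L := by
    intro v
    refine ⟨!![v 2, v 0; v 1, 0], ?_⟩
    ext i
    fin_cases i <;> simp [L, LOC_co]
  have hspan2 : Submodule.span Ω (Set.range fun u : U => LOC_co (bc (algebraMap F Ω) ρ (u : Γ))) = ⊤ := by
    have e : (Set.range fun u : U => LOC_co (bc (algebraMap F Ω) ρ (u : Γ))) =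
        L '' Set.range ((bc (algebraMap F Ω) ρ).comp U.subtype) := by
      rw [← Set.range_comp]
      rfl
    rw [e, Submodule.span_image, hspan, Submodule.map_top, LinearMap.range_eq_top]
    exact hL
  obtain ⟨u, hu⟩ := LOC_three _ hspan2
  -- the entries over `F`
  obtain ⟨Y, hY⟩ : ∃ Y : Fin 3 → Matrix (Fin 2) (Fin 2) F, Y = fun i => ρ (u i : Γ) := ⟨_, rfl⟩
  have hdF : (Matrix.of fun i => LOC_co (Y i) : Matrix (Fin 3) (Fin 3) F).det ≠ 0 := by
    intro h0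
    apply hu
    have e : (Matrix.of fun i => LOC_co (bc (algebraMap F Ω) ρ (u i : Γ)) : Matrix (Fin 3) (Fin 3) Ω) =
        (algebraMap F Ω).mapMatrix (Matrix.of fun i => LOC_co (Y i)) := by
      ext i j
      rw [hY]
      fin_cases j <;> simp [LOC_co, bc]
    rw [e, ← RingHom.map_det, h0, map_zero]
  choose tr0 det0 htd using hpol
  obtain ⟨B, hB⟩ : ∃ B : Matrix (Fin 3) (Fin 3) ℚ_[p], B = Matrix.of fun i j =>
    2 * tr0 ((u i : Γ) * (u j : Γ)) - tr0 (u i : Γ) * tr0 (u j : Γ) := ⟨_, rfl⟩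
  have hinj : Function.Injective (algebraMap ℚ_[p] F) := (algebraMap ℚ_[p] F).injective
  have hBF : ∀ i j, algebraMap ℚ_[p] F (B i j) = 2 * (Y i * Y j).trace - (Y i).trace * (Y j).trace := by
    intro i j
    rw [hB, hY]
    simp only [Matrix.of_apply, map_sub, map_mul, map_ofNat, (htd _).1]
  have hsymm : B.IsSymm := by
    ext i j
    apply hinj
    rw [Matrix.transpose_apply, hBF, hBF, Matrix.trace_mul_comm, mul_comm (Y j).trace]
  have hdet : B.det ≠ 0 := by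
    intro h0
    have e : (algebraMap ℚ_[p] F).mapMatrix B = (Matrix.of fun i j => 2 * (Y i * Y j).trace - (Y i).trace * (Y j).trace) := by
      ext i j
      rw [RingHom.mapMatrix_apply, Matrix.map_apply, hBF]
      rfl
    have h1 : algebraMap ℚ_[p] F B.det = -4 * ((Matrix.of fun i => LOC_co (Y i) : Matrix (Fin 3) (Fin 3) F).det) ^ 2 := by
      rw [RingHom.map_det, e, LOC_gram]
    rw [h0, map_zero] at h1
    have h4 : (-4 : F) ≠ 0 := by
      have h5 : algebraMap ℚ_[p] F (-4) ≠ 0 := by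
        rw [Ne, map_eq_zero]
        norm_num
      rw [map_neg, map_ofNat] at h5
      exact h5
    exact mul_ne_zero h4 (pow_ne_zero 2 hdF) h1.symm
  obtain ⟨τ, hτ⟩ := hTFQ p B hsymm hdet
  obtain ⟨D, hD⟩ : ∃ D : ℚ_[p], D = ∑ i, ∑ j, (τ i : ℚ_[p]) * B i j * (τ j : ℚ_[p]) := ⟨_, rfl⟩
  rw [← hD] at hτ
  have hD0 : D ≠ 0 := by
    rintro rfl
    exact hτ ⟨0, by rw [mul_zero]⟩
  have hDF : algebraMap ℚ_[p] F D = dsc (∑ i, (τ i : F) • Y i) := by
    rw [LOC_dsc, hD, map_sum]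
    refine Finset.sum_congr rfl fun i _ => ?_
    rw [map_sum]
    refine Finset.sum_congr rfl fun j _ => ?_
    rw [map_mul, map_mul, map_intCast, map_intCast, hBF]
  have h4D : (4 : ℚ_[p]) * D ≠ 0 := mul_ne_zero (by norm_num) hD0
  obtain ⟨n, a, hna⟩ := hPOW p F Y (by
    intro i x y
    rw [hY]
    exact (hmemU _ (u i).2 x y).trans hr2) (by
    intro i
    rw [hY]
    exact ⟨_, _, htd _⟩) τ ‖4 * D‖ (norm_pos_iff.2 h4D)
  obtain ⟨g, hg⟩ : ∃ g : U, g = u 0 ^ a 0 * u 1 ^ a 1 * u 2 ^ a 2 := ⟨_, rfl⟩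
  have hρg : ρ (g : Γ) = Y 0 ^ a 0 * Y 1 ^ a 1 * Y 2 ^ a 2 := by
    rw [hg, hY]
    simp only [Subgroup.coe_mul, Subgroup.coe_pow, map_mul, map_pow]
  have hgU : ∀ x y, ‖ρ (g : Γ) x y - (1 : Matrix (Fin 2) (Fin 2) F) x y‖ ≤ r := hmemU _ g.2
  refine ⟨g, fun x y => lt_of_le_of_lt ((hgU x y).trans hr1) (by linarith), tr0 g ^ 2 - 4 * det0 g, ?_, ?_⟩
  · unfold dsc
    rw [map_sub, map_pow, map_mul, map_ofNat, (htd g).1, (htd g).2]
  · rintro ⟨y, hy⟩
    have hx : algebraMap ℚ_[p] F (tr0 g ^ 2 - 4 * det0 g) = dsc (ρ (g : Γ)) := by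
      unfold dsc
      rw [map_sub, map_pow, map_mul, map_ofNat, (htd g).1, (htd g).2]
    rw [← hρg, ← hx, hy] at hna
    have h1 : algebraMap ℚ_[p] F (y * y) - (p : F) ^ (2 * n) * dsc (∑ i, (τ i : F) • Y i) =
        algebraMap ℚ_[p] F (y * y - (p : ℚ_[p]) ^ (2 * n) * D) := by
      rw [map_sub, map_mul (algebraMap ℚ_[p] F) ((p : ℚ_[p]) ^ (2 * n)), hDF, map_pow, map_natCast]
    rw [h1, norm_algebraMap'] at hna
    have hpD : (p : ℚ_[p]) ^ (2 * n) * D ≠ 0 := mul_ne_zero (pow_ne_zero _ hpz) hD0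
    have h2 : ‖(y * y - (p : ℚ_[p]) ^ (2 * n) * D) / ((p : ℚ_[p]) ^ (2 * n) * D)‖ < ‖(4 : ℚ_[p])‖ := by
      rw [norm_div, div_lt_iff₀ (norm_pos_iff.2 hpD)]
      refine hna.trans_le (le_of_eq ?_)
      rw [norm_mul, norm_mul, norm_pow, Padic.norm_p, inv_pow]
      ring
    obtain ⟨w, hw⟩ := LOC_hensel p _ h2
    have h3 : 1 + (y * y - (p : ℚ_[p]) ^ (2 * n) * D) / ((p : ℚ_[p]) ^ (2 * n) * D) = y * y / ((p : ℚ_[p]) ^ (2 * n) * D) := by
      field_simp
      ring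
    rw [h3] at hw
    have hw0 : w ≠ 0 := by
      rintro rfl
      rw [mul_zero] at hw
      rw [h3.symm] at hw
      have h5 : (y * y - (p : ℚ_[p]) ^ (2 * n) * D) / ((p : ℚ_[p]) ^ (2 * n) * D) = -1 := by linear_combination hw
      rw [h5, norm_neg, norm_one] at h2
      have h6 : ‖(4 : ℚ_[p])‖ ≤ 1 := by
        have h := Padic.norm_int_le_one (p := p) 4
        exact_mod_cast h
      linarith
    apply hτ
    refine ⟨y / ((p : ℚ_[p]) ^ n * w), ?_⟩
    rw [div_eq_iff hpD] at hw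
    have h7 : (p : ℚ_[p]) ^ n ≠ 0 := pow_ne_zero _ hpz
    field_simp
    rw [pow_mul'] at hw
    linear_combination -hw

end Pool.Agent.LB
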